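import Mathlib
import Pool.Agent.R989.CritD

/-!
# MP_8e1908_an, Q1 (disproof, for every `a` in `(0,1)`)

For every `a ∈ (0,1)` there is `ε > 0` such that for all large `n` every polynomial of degree `n`
with all zeros in the closed unit disc and with `P(a) = 0` has a critical point within distance
`1 - ε` of `a`. Hence `δ_n(a) ≤ 1 - ε` for all large `n`, and `δ_n(a)` does not tend to `1`.
-/

open Filter Topology Polynomial

namespace Pool.Agent.Results.MP_8e1908_an.DeltaNotOne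

noncomputable section

/-- The competitors in the definition of `δ_n(a)`: degree `n`, a zero at `a`, and all zeros in the
closed unit disc. -/
def Adm (n : ℕ) (a : ℝ) (P : ℂ[X]) : Prop :=
  P.natDegree = n ∧ P.eval (a:ℂ) = 0 ∧ ∀ z : ℂ, P.eval z = 0 → ‖z‖ ≤ 1

/-- `d(a,P)`: the least distance from `a` to a critical point of `P`. -/
def dcrit (a : ℝ) (P : ℂ[X]) : ℝ :=
  sInf ((fun c : ℂ => ‖c - a‖) '' {c : ℂ | P.derivative.eval c = 0})

/-- `δ_n(a)`: the supremum of `d(a,P)` over the competitors. -/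
def delta (n : ℕ) (a : ℝ) : ℝ := sSup (dcrit a '' {P : ℂ[X] | Adm n a P})

/-- For every `a ∈ (0,1)`: there is `ε > 0` such that for all large `n` (i) every competitor of
degree `n` has a critical point within distance `1 - ε` of `a`, and (ii) `δ_n(a) ≤ 1 - ε`; in
particular `δ_n(a)` does not tend to `1`. The last part records that for `n ≥ 2` the supremum
in the definition of `δ_n(a)` is over a nonempty set bounded above by `2`. -/
theorem result (a : ℝ) (ha : 0 < a) (ha1 : a < 1) :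
    (∃ ε : ℝ, 0 < ε ∧ ∀ᶠ n : ℕ in atTop,
      (∀ P : ℂ[X], Adm n a P → ∃ c : ℂ, P.derivative.eval c = 0 ∧ ‖c - a‖ ≤ 1 - ε) ∧
      delta n a ≤ 1 - ε) ∧
    ¬ Tendsto (fun n : ℕ => delta n a) atTop (𝓝 1) ∧
    ∀ n : ℕ, 2 ≤ n → (dcrit a '' {P : ℂ[X] | Adm n a P}).Nonempty ∧
      ∀ d ∈ dcrit a '' {P : ℂ[X] | Adm n a P}, d ≤ 2 := by
  have hbdd : ∀ P : ℂ[X], BddBelow ((fun c : ℂ => ‖c - a‖) '' {c : ℂ | P.derivative.eval c = 0}) := by
    intro P
    refine ⟨0, ?_⟩
    rintro _ ⟨c, _, rfl⟩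
    exact norm_nonneg _
  have hne : ∀ n : ℕ, 1 ≤ n → (dcrit a '' {P : ℂ[X] | Adm n a P}).Nonempty := by
    intro n hn
    refine ⟨_, (X - C (a:ℂ))^n, ⟨by rw [natDegree_pow, natDegree_X_sub_C, mul_one], ?_, ?_⟩, rfl⟩
    · rw [eval_pow, eval_sub, eval_X, eval_C, sub_self, zero_pow (by omega)]
    · intro z hz
      rw [eval_pow, eval_sub, eval_X, eval_C] at hz
      have h1 : z = (a:ℂ) := sub_eq_zero.mp (pow_eq_zero_iff (by omega) |>.mp hz)
      rw [h1, Complex.norm_real, Real.norm_of_nonneg ha.le]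
      exact ha1.le
  obtain ⟨ε, hε, hmain⟩ := Pool.Agent.R989.Crit.poly_main ha ha1
  have hdelta : ∀ᶠ n : ℕ in atTop,
      (∀ P : ℂ[X], Adm n a P → ∃ c : ℂ, P.derivative.eval c = 0 ∧ ‖c - a‖ ≤ 1 - ε) ∧
      delta n a ≤ 1 - ε := by
    filter_upwards [hmain, eventually_ge_atTop 1] with n hn hn1
    have h1 : ∀ P : ℂ[X], Adm n a P → ∃ c : ℂ, P.derivative.eval c = 0 ∧ ‖c - a‖ ≤ 1 - ε :=
      fun P hP => hn P hP.1 hP.2.1 hP.2.2
    refine ⟨h1, ?_⟩
    apply csSup_le (hne n hn1)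
    rintro _ ⟨P, hP, rfl⟩
    obtain ⟨c, hc, hcd⟩ := h1 P hP
    exact (csInf_le (hbdd P) ⟨c, hc, rfl⟩).trans hcd
  refine ⟨⟨ε, hε, hdelta⟩, ?_, ?_⟩
  · intro hT
    have h1 : ∀ᶠ n : ℕ in atTop, 1 - ε < delta n a :=
      hT.eventually (lt_mem_nhds (by linarith))
    obtain ⟨n, hn1, hn2⟩ := (h1.and hdelta).exists
    linarith [hn2.2]
  · intro n hn
    refine ⟨hne n (by omega), ?_⟩
    rintro _ ⟨P, hP, rfl⟩
    have hdeg : P.derivative.natDegree ≠ 0 := by
      rw [natDegree_derivative, hP.1]; omega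
    obtain ⟨c, hc⟩ := IsAlgClosed.exists_root P.derivative (by
      intro h0
      exact hdeg (natDegree_eq_of_degree_eq_some h0))
    have hc1 : ‖c‖ ≤ 1 := Pool.Agent.R989.Crit.crit_in_disc P (by rw [hP.1]; omega) hP.2.2 hc
    have h2 : ‖c - a‖ ≤ 2 := by
      have h := norm_sub_le c (a:ℂ)
      rw [Complex.norm_real, Real.norm_of_nonneg ha.le] at h
      linarith
    exact (csInf_le (hbdd P) ⟨c, hc, rfl⟩).trans h2

end

end Pool.Agent.Results.MP_8e1908_an.DeltaNotOne
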